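import Pool.Agent.Helper83.EIN2.Goals

/-!
# Packet MMS of project EIN2 (MP_06d934_gt)

A zero of the chart `MM` gives a solution of the Einstein equations.
-/

set_option autoImplicit false

namespace Pool.Agent.Helper53.EIN2

open Pool.Agent.Helper83.EIN Pool.Agent.Helper83.EIN2

/-- The core computation, with names for the twelve coordinates. -/
theorem core (hPR : PR) {a β t A μ k2 k3 k0 l2 l3 l0 τ₂ τ₃ σ₂ σ₃ ξ u w y₀ z₀ y₁ z₁ : ℝ}
    (ht : 0 < t)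
    (hξ : ξ = 1 + (1 - t) * t * (β * τ₂ + (1 - β) * τ₃))
    (hu : u = t * ξ)
    (hw : w = 1 + t - t ^ 2 * (a * k0 + (1 - a) * (k0 + t * l0)))
    (hy₀ : y₀ = 1 - t * (1 - a) * A - (1 - t) * (1 - β) * (1 - t * k3))
    (hz₀ : z₀ = 1 - t * (1 - a) * (-A + t * μ) - (1 - t) * β * (1 - t * k2))
    (hy₁ : y₁ = 1 - t * a * (-A + t * σ₂) - (1 - t) * (1 - β) * (1 - t * (k3 + t * l3)))
    (hz₁ : z₁ = 1 - t * a * (-(-A + t * μ) + t * σ₃) - (1 - t) * β * (1 - t * (k2 + t * l2)))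
    (pu : 0 < u) (pw : 0 < w) (py₀ : 0 < y₀) (pz₀ : 0 < z₀) (py₁ : 0 < y₁) (pz₁ : 0 < z₁)
    (f0 : (1 - t) * ((1 - β) * k3 + β * k2) + t * (a * k0 + (1 - a) * (k0 + t * l0) - (1 - a) * μ) -
      (z₀ * k0 - w * k2) = 0)
    (f1 : (1 - t) * ((1 - β) * k3 + β * k2) + t * (a * k0 + (1 - a) * (k0 + t * l0) - (1 - a) * μ) -
      (y₀ * k0 - w * k3) = 0)
    (f2 : (1 - (1 - a) * A) * k2 + (1 - (1 - a) * (-A + t * μ)) * k3 + (1 - t) * k2 * k3 -
      (a * k0 + (1 - a) * (k0 + t * l0) - (1 - a) * μ) = 0)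
    (f3 : (1 - a * (-A + t * σ₂)) * (k2 + t * l2) +
      (1 - a * (-(-A + t * μ) + t * σ₃)) * (k3 + t * l3) +
      (1 - t) * (k2 + t * l2) * (k3 + t * l3) -
      (a * k0 + (1 - a) * (k0 + t * l0) - a * (σ₂ + σ₃ - μ)) = 0)
    (f4 : (1 - t) * ((1 - β) * l3 + β * l2) + (1 - a) * μ - a * (σ₂ + σ₃ - μ) -
      ((ξ * (-A + t * μ) - t * z₀ * τ₃) * (k0 + t * l0) + z₀ * l0 - w * l2) = 0)
    (f5 : (1 - t) * ((1 - β) * l3 + β * l2) + (1 - a) * μ - a * (σ₂ + σ₃ - μ) -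
      ((ξ * A - t * y₀ * τ₂) * (k0 + t * l0) + y₀ * l0 - w * l3) = 0)
    (f6 : -(a * σ₂) + (1 - t) * (1 - β) * l3 -
      ((1 - t) * (β * τ₂ + (1 - β) * τ₃) * A - y₀ * τ₂) = 0)
    (f7 : -(a * σ₃) + (1 - t) * β * l2 -
      ((1 - t) * (β * τ₂ + (1 - β) * τ₃) * (-A + t * μ) - z₀ * τ₃) = 0)
    (f8 : ξ ^ 2 * (1 - A ^ 2) - y₀ * τ₂ * (y₀ + y₁ - t * ξ * A) = 0)
    (f9 : ξ ^ 2 * (1 - (-A + t * μ) ^ 2) - z₀ * τ₃ * (z₀ + z₁ - t * ξ * (-A + t * μ)) = 0)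
    (f10 : ξ * σ₂ - τ₂ * (y₀ + y₁) = 0)
    (f11 : ξ * σ₃ - τ₃ * (z₀ + z₁) = 0) :
    cs u y₁ y₀ = A ∧ cs u y₀ y₁ = -A + t * σ₂ ∧ cs y₀ y₁ u = 1 - t ^ 2 * τ₂ ∧
    cs u z₁ z₀ = -A + t * μ ∧ cs u z₀ z₁ = -(-A + t * μ) + t * σ₃ ∧ cs z₀ z₁ u = 1 - t ^ 2 * τ₃ ∧
    cs w y₀ z₀ = 1 - t * k2 ∧ cs w z₀ y₀ = 1 - t * k3 ∧ cs y₀ z₀ w = -1 + t * k0 ∧
    cs w y₁ z₁ = 1 - t * (k2 + t * l2) ∧ cs w z₁ y₁ = 1 - t * (k3 + t * l3) ∧
    cs y₁ z₁ w = -1 + t * (k0 + t * l0) := by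
  have pξ : 0 < ξ := by
    rw [hu] at pu
    exact (pos_iff_pos_of_mul_pos pu).1 ht
  -- differences
  have dy : y₁ - y₀ = t * (ξ * A - t * y₀ * τ₂) := by
    rw [hξ]
    linear_combination hy₁ - hy₀ + t ^ 2 * f6
  have dz : z₁ - z₀ = t * (ξ * (-A + t * μ) - t * z₀ * τ₃) := by
    rw [hξ]
    linear_combination hz₁ - hz₀ + t ^ 2 * f7
  obtain ⟨a1, a2, a3⟩ := (hPR t ξ y₀ y₁ A (-A + t * σ₂) τ₂ σ₂ ht pξ py₀ py₁ (by ring)).2
    ⟨dy, f8, f10⟩
  obtain ⟨b1, b2, b3⟩ := (hPR t ξ z₀ z₁ (-A + t * μ) (-(-A + t * μ) + t * σ₃) τ₃ σ₃ ht pξ pz₀ pz₁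
    (by ring)).2 ⟨dz, f9, f11⟩
  rw [← hu] at a1 a2 a3 b1 b2 b3
  -- the triangle 023
  have c0 : y₀ = w * (1 - t * k2) + z₀ * (-1 + t * k0) := by
    linear_combination hy₀ + hz₀ - hw + t * f0
  have c1 : z₀ = w * (1 - t * k3) + y₀ * (-1 + t * k0) := by
    linear_combination hy₀ + hz₀ - hw + t * f1
  have c2 : w = y₀ * (1 - t * k2) + z₀ * (1 - t * k3) := by
    linear_combination (-1 + t * k2) * hy₀ + (-1 + t * k3) * hz₀ + hw + t ^ 2 * f2
  -- the triangle 123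
  have d0 : y₁ = w * (1 - t * (k2 + t * l2)) + z₁ * (-1 + t * (k0 + t * l0)) := by
    linear_combination hy₁ + hz₁ - hw + t * f0 + t ^ 2 * f4 - t * (k0 + t * l0) * dz
  have d1 : z₁ = w * (1 - t * (k3 + t * l3)) + y₁ * (-1 + t * (k0 + t * l0)) := by
    linear_combination hy₁ + hz₁ - hw + t * f1 + t ^ 2 * f5 - t * (k0 + t * l0) * dy
  have d2 : w = y₁ * (1 - t * (k2 + t * l2)) + z₁ * (1 - t * (k3 + t * l3)) := by
    linear_combination (-1 + t * (k2 + t * l2)) * hy₁ + (-1 + t * (k3 + t * l3)) * hz₁ + hw +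
      t ^ 2 * f3
  refine ⟨a1, a2, a3, b1, b2, b3, ?_, ?_, ?_, ?_, ?_, ?_⟩
  · exact cs_of_proj (p := -1 + t * k0) (q := 1 - t * k3) pw py₀ c2 c0 (by linear_combination c1)
  · exact cs_of_proj (p := -1 + t * k0) (q := 1 - t * k2) pw pz₀ (by linear_combination c2) c1
      (by linear_combination c0)
  · exact cs_of_proj (p := 1 - t * k3) (q := 1 - t * k2) py₀ pz₀ (by linear_combination c0)
      (by linear_combination c1) (by linear_combination c2)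
  · exact cs_of_proj (p := -1 + t * (k0 + t * l0)) (q := 1 - t * (k3 + t * l3)) pw py₁ d2 d0
      (by linear_combination d1)
  · exact cs_of_proj (p := -1 + t * (k0 + t * l0)) (q := 1 - t * (k2 + t * l2)) pw pz₁
      (by linear_combination d2) d1 (by linear_combination d0)
  · exact cs_of_proj (p := 1 - t * (k3 + t * l3)) (q := 1 - t * (k2 + t * l2)) py₁ pz₁
      (by linear_combination d0) (by linear_combination d1) (by linear_combination d2)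

/-- **MMS** (a zero of the chart `MM` gives a solution). -/
theorem mms (hPR : PR) : MMS := by
  intro a β t p ht ht1 _ _ hpos hF
  have key := core hPR (a := a) (β := β) (t := t) (A := p 0) (μ := p 1) (k2 := p 2) (k3 := p 3)
    (k0 := p 4) (l2 := p 5) (l3 := p 6) (l0 := p 7) (τ₂ := p 8) (τ₃ := p 9) (σ₂ := p 10)
    (σ₃ := p 11) (u := lenMM a β t p 0) (w := lenMM a β t p 1) (y₀ := lenMM a β t p 2)
    (z₀ := lenMM a β t p 3) (y₁ := lenMM a β t p 4) (z₁ := lenMM a β t p 5) ht rfl rfl rfl rfl rfl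
    rfl rfl (hpos 0) (hpos 1) (hpos 2) (hpos 3) (hpos 4) (hpos 5) (congrFun hF 0) (congrFun hF 1)
    (congrFun hF 2) (congrFun hF 3) (congrFun hF 4) (congrFun hF 5) (congrFun hF 6) (congrFun hF 7)
    (congrFun hF 8) (congrFun hF 9) (congrFun hF 10) (congrFun hF 11)
  have v0 : lenMM a β t p 0 = t * (1 + (1 - t) * t * (β * p 8 + (1 - β) * p 9)) := rfl
  have v1 : lenMM a β t p 1 = 1 + t - t ^ 2 * (a * p 4 + (1 - a) * (p 4 + t * p 7)) := rfl
  have v2 : lenMM a β t p 2 = 1 - t * (1 - a) * p 0 - (1 - t) * (1 - β) * (1 - t * p 3) := rfl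
  have v3 : lenMM a β t p 3 =
      1 - t * (1 - a) * (-p 0 + t * p 1) - (1 - t) * β * (1 - t * p 2) := rfl
  have v4 : lenMM a β t p 4 =
      1 - t * a * (-p 0 + t * p 10) - (1 - t) * (1 - β) * (1 - t * (p 3 + t * p 6)) := rfl
  have v5 : lenMM a β t p 5 = 1 - t * a * (-(-p 0 + t * p 1) + t * p 11) -
      (1 - t) * β * (1 - t * (p 2 + t * p 5)) := rfl
  generalize lenMM a β t p = v at *
  obtain ⟨a1, a2, a3, b1, b2, b3, c1, c2, c3, d1, d2, d3⟩ := key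
  constructor
  · refine ⟨hpos, ?_, ?_, ?_, ?_, ?_, ?_⟩
    · rw [a3, b3]
      linear_combination v0
    · rw [c3, d3]
      linear_combination v1
    · rw [a1, c2]
      linear_combination v2
    · rw [b1, c1]
      linear_combination v3
    · rw [a2, d2]
      linear_combination v4
    · rw [b2, d1]
      linear_combination v5
  · have ht' : t ≠ 0 := ht.ne'
    funext i
    fin_cases i
    · exact a1
    · change (cs (v 0) (v 4) (v 2) + cs (v 0) (v 5) (v 3)) / t = p 1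
      rw [a1, b1]
      field_simp
      ring
    · change (1 - cs (v 1) (v 2) (v 3)) / t = p 2
      rw [c1]
      field_simp
      ring
    · change (1 - cs (v 1) (v 3) (v 2)) / t = p 3
      rw [c2]
      field_simp
      ring
    · change (1 + cs (v 2) (v 3) (v 1)) / t = p 4
      rw [c3]
      field_simp
      ring
    · change (cs (v 1) (v 2) (v 3) - cs (v 1) (v 4) (v 5)) / t ^ 2 = p 5
      rw [c1, d1]
      field_simp
      ring
    · change (cs (v 1) (v 3) (v 2) - cs (v 1) (v 5) (v 4)) / t ^ 2 = p 6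
      rw [c2, d2]
      field_simp
      ring
    · change (cs (v 4) (v 5) (v 1) - cs (v 2) (v 3) (v 1)) / t ^ 2 = p 7
      rw [c3, d3]
      field_simp
      ring
    · change (1 - cs (v 2) (v 4) (v 0)) / t ^ 2 = p 8
      rw [a3]
      field_simp
      ring
    · change (1 - cs (v 3) (v 5) (v 0)) / t ^ 2 = p 9
      rw [b3]
      field_simp
      ring
    · change (cs (v 0) (v 4) (v 2) + cs (v 0) (v 2) (v 4)) / t = p 10
      rw [a1, a2]
      field_simp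
      ring
    · change (cs (v 0) (v 5) (v 3) + cs (v 0) (v 3) (v 5)) / t = p 11
      rw [b1, b2]
      field_simp
      ring

end Pool.Agent.Helper53.EIN2
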